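import Mathlib

open Filter Topology Set

namespace Pool.Agent.MP86c582

/-- Configurations on `ℤ^d` with integer symbols. -/
abbrev Config (d : ℕ) := (Fin d → ℤ) → ℤ

/-- The sup norm of an element of `ℤ^d`. -/
def supNorm {d : ℕ} (n : Fin d → ℤ) : ℕ := Finset.univ.sup (fun i => (n i).natAbs)

/-- The distance `δ(x,y) = 2^{-min {‖n‖ : x_n ≠ y_n}}`, with `δ(x,x) = 0`. -/
noncomputable def delta {d : ℕ} (x y : Config d) : ℝ :=
  open Classical in
  if x = y then 0 else (1 / 2 : ℝ) ^ (sInf {k : ℕ | ∃ n, supNorm n = k ∧ x n ≠ y n})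

/-- The shift action `(σ^u x)_v = x_{u+v}`. -/
def shift {d : ℕ} (u : Fin d → ℤ) (x : Config d) : Config d := fun v => x (u + v)

/-- A `d`-dimensional shift: a compact shift-invariant set of configurations over some finite
alphabet (compactness for the product topology of the discrete topology, which is the topology
of `δ`). -/
def IsShift {d : ℕ} (X : Set (Config d)) : Prop :=
  (∃ A : Finset ℤ, ∀ x ∈ X, ∀ v, x v ∈ A) ∧ IsCompact X ∧ ∀ u, ∀ x ∈ X, shift u x ∈ X

/-- Some point of `X` has a dense orbit in `X`. -/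
def IsTransitive {d : ℕ} (X : Set (Config d)) : Prop :=
  ∃ x ∈ X, X ⊆ closure (Set.range (fun u => shift u x))

/-- The Hausdorff distance for `δ`. -/
noncomputable def hausdorff {d : ℕ} (X Z : Set (Config d)) : ℝ :=
  max (⨆ x : X, ⨅ z : Z, delta x.1 z.1) (⨆ z : Z, ⨅ x : X, delta x.1 z.1)

/-- `X` is isolated in the space of transitive `d`-dimensional shifts. -/
def IsIsolated {d : ℕ} (X : Set (Config d)) : Prop :=
  IsShift X ∧ IsTransitive X ∧
    ∃ ε : ℝ, 0 < ε ∧ ∀ Y : Set (Config d), IsShift Y → IsTransitive Y →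
      hausdorff X Y < ε → Y = X

/-- The patterns on `{0,…,n-1}^d` that appear in some configuration of `X`. -/
def language {d : ℕ} (n : ℕ) (X : Set (Config d)) : Set ((Fin d → Fin n) → ℤ) :=
  {p | ∃ x ∈ X, ∃ u : Fin d → ℤ, ∀ v : Fin d → Fin n, x (fun i => u i + ((v i : ℕ) : ℤ)) = p v}

/-- `X` has topological entropy `h`, i.e. `n^{-d} log |L_n(X)| → h`. -/
def HasEntropy {d : ℕ} (X : Set (Config d)) (h : ℝ) : Prop :=
  Tendsto (fun n : ℕ => Real.log ((language n X).ncard : ℝ) / (n : ℝ) ^ d) atTop (𝓝 h)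

end Pool.Agent.MP86c582
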