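import Pool.Agent.MP86c582.Defs

open Filter Topology Set

namespace Pool.Agent.MP86c582

variable {d : ℕ}

lemma natAbs_le_supNorm (v : Fin d → ℤ) (i : Fin d) : (v i).natAbs ≤ supNorm v :=
  Finset.le_sup (f := fun i => (v i).natAbs) (Finset.mem_univ i)

lemma supNorm_le_iff (v : Fin d → ℤ) (k : ℕ) : supNorm v ≤ k ↔ ∀ i, (v i).natAbs ≤ k := by
  unfold supNorm
  rw [Finset.sup_le_iff]
  simp

lemma finite_ball (k : ℕ) : {v : Fin d → ℤ | supNorm v ≤ k}.Finite := by
  refine Set.Finite.subset (Set.finite_Icc (fun _ : Fin d => -(k:ℤ)) (fun _ => (k:ℤ))) ?_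
  intro v hv
  have hv' := (supNorm_le_iff v k).mp hv
  rw [Set.mem_Icc]
  refine ⟨fun i => ?_, fun i => ?_⟩
  · have := hv' i; simp only; omega
  · have := hv' i; simp only; omega

lemma delta_le {x y : Config d} {k : ℕ} (h : ∀ v, supNorm v ≤ k → x v = y v) :
    delta x y ≤ (1/2 : ℝ) ^ (k+1) := by
  unfold delta
  split_ifs with hxy
  · positivity
  · refine pow_le_pow_of_le_one (by norm_num) (by norm_num) ?_
    have hne : {k : ℕ | ∃ n, supNorm n = k ∧ x n ≠ y n}.Nonempty := by
      by_contra hcon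
      rw [Set.not_nonempty_iff_eq_empty] at hcon
      apply hxy
      funext n
      by_contra hn
      have : supNorm n ∈ ({k : ℕ | ∃ n, supNorm n = k ∧ x n ≠ y n} : Set ℕ) := ⟨n, rfl, hn⟩
      rw [hcon] at this
      exact this
    obtain ⟨n, hn1, hn2⟩ := Nat.sInf_mem hne
    rw [← hn1]
    by_contra hlt
    exact hn2 (h n (by omega))

lemma delta_nonneg (x y : Config d) : 0 ≤ delta x y := by
  unfold delta
  split_ifs <;> positivity

lemma hausdorff_le {X Y : Set (Config d)} {k : ℕ} (hX : X.Nonempty) (hY : Y.Nonempty)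
    (h1 : ∀ x ∈ X, ∃ y ∈ Y, ∀ v, supNorm v ≤ k → x v = y v)
    (h2 : ∀ y ∈ Y, ∃ x ∈ X, ∀ v, supNorm v ≤ k → x v = y v) :
    hausdorff X Y ≤ (1/2 : ℝ) ^ (k+1) := by
  have := hX.to_subtype
  have := hY.to_subtype
  unfold hausdorff
  refine max_le ?_ ?_
  · refine ciSup_le ?_
    rintro ⟨x, hx⟩
    obtain ⟨y, hy, hxy⟩ := h1 x hx
    refine (ciInf_le ⟨0, ?_⟩ (⟨y, hy⟩ : Y)).trans (delta_le hxy)
    rintro _ ⟨z, rfl⟩
    exact delta_nonneg _ _
  · refine ciSup_le ?_
    rintro ⟨y, hy⟩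
    obtain ⟨x, hx, hxy⟩ := h2 y hy
    refine (ciInf_le ⟨0, ?_⟩ (⟨x, hx⟩ : X)).trans (delta_le hxy)
    rintro _ ⟨z, rfl⟩
    exact delta_nonneg _ _

lemma isOpen_agree (y : Config d) {S : Set (Fin d → ℤ)} (hS : S.Finite) :
    IsOpen {z : Config d | ∀ v ∈ S, z v = y v} := by
  have : {z : Config d | ∀ v ∈ S, z v = y v} = S.pi (fun v => {y v}) := by
    ext z; simp [Set.mem_pi]
  rw [this]
  exact isOpen_set_pi hS (fun _ _ => isOpen_discrete _)

lemma mem_closure_orbit_iff (z y : Config d) :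
    y ∈ closure (Set.range (fun u => shift u z)) ↔
      ∀ S : Set (Fin d → ℤ), S.Finite → ∃ u, ∀ v ∈ S, z (u + v) = y v := by
  constructor
  · intro h S hS
    rw [mem_closure_iff] at h
    obtain ⟨_, hw, ⟨u, rfl⟩⟩ := h _ (isOpen_agree y hS) (fun _ _ => rfl)
    exact ⟨u, hw⟩
  · intro h
    rw [mem_closure_iff]
    intro O hO hy
    obtain ⟨I, W, hW, hsub⟩ := isOpen_pi_iff.mp hO y hy
    obtain ⟨u, hu⟩ := h I I.finite_toSet
    refine ⟨shift u z, hsub ?_, u, rfl⟩
    intro v hv
    have : shift u z v = y v := hu v hv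
    rw [this]
    exact (hW v hv).2

lemma continuous_shift (u : Fin d → ℤ) : Continuous (shift (d := d) u) :=
  continuous_pi (fun v => continuous_apply (u + v))

lemma shift_shift (u w : Fin d → ℤ) (x : Config d) : shift u (shift w x) = shift (w + u) x := by
  funext v
  simp [shift, add_assoc]

lemma isClosed_alphabet (A : Finset ℤ) : IsClosed {y : Config d | ∀ v, y v ∈ A} := by
  have : {y : Config d | ∀ v, y v ∈ A} = Set.pi Set.univ (fun _ => (A : Set ℤ)) := by
    ext y; simp [Set.mem_pi]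
  rw [this]
  exact isClosed_set_pi (fun _ _ => isClosed_discrete _)

lemma isCompact_alphabet (A : Finset ℤ) : IsCompact {y : Config d | ∀ v, y v ∈ A} := by
  have : {y : Config d | ∀ v, y v ∈ A} = Set.pi Set.univ (fun _ => (A : Set ℤ)) := by
    ext y; simp [Set.mem_pi]
  rw [this]
  exact isCompact_univ_pi (fun _ => A.finite_toSet.isCompact)

lemma closure_orbit_alphabet {A : Finset ℤ} {z : Config d} (hz : ∀ v, z v ∈ A) :
    ∀ y ∈ closure (Set.range (fun u => shift u z)), ∀ v, y v ∈ A := by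
  intro y hy
  have h : closure (Set.range (fun u => shift u z)) ⊆ {y : Config d | ∀ v, y v ∈ A} := by
    refine closure_minimal ?_ (isClosed_alphabet A)
    rintro _ ⟨u, rfl⟩ v
    exact hz _
  exact h hy

lemma isShift_closure_orbit {A : Finset ℤ} {z : Config d} (hz : ∀ v, z v ∈ A) :
    IsShift (closure (Set.range (fun u => shift u z))) := by
  refine ⟨⟨A, closure_orbit_alphabet hz⟩, ?_, ?_⟩
  · refine (isCompact_alphabet A).of_isClosed_subset isClosed_closure ?_
    exact closure_orbit_alphabet hz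
  · intro u y hy
    rw [mem_closure_orbit_iff] at hy ⊢
    intro S hS
    obtain ⟨w, hw⟩ := hy ((fun v => u + v) '' S) (hS.image _)
    refine ⟨w + u, fun v hv => ?_⟩
    rw [add_assoc]
    exact hw _ ⟨v, hv, rfl⟩

lemma self_mem_closure_orbit (z : Config d) : z ∈ closure (Set.range (fun u => shift u z)) := by
  rw [mem_closure_orbit_iff]
  intro S _
  exact ⟨0, fun v _ => by rw [zero_add]⟩

lemma isTransitive_closure_orbit (z : Config d) :
    IsTransitive (closure (Set.range (fun u => shift u z))) :=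
  ⟨z, self_mem_closure_orbit z, le_rfl⟩

/-- Every `k`-ball pattern of `z` occurs in `X`. -/
def Adm (k : ℕ) (X : Set (Config d)) (z : Config d) : Prop :=
  ∀ u, ∃ x ∈ X, ∀ v, supNorm v ≤ k → z (u + v) = x v

/-- If `z` is `k`-admissible and sees all `k`-ball patterns of the isolated shift `X`, then its orbit
closure is `X`. -/
lemma closure_orbit_eq {X : Set (Config d)} {ε : ℝ} {k : ℕ} (hk : (1/2 : ℝ) ^ (k+1) < ε)
    (hX : X.Nonempty)
    (hiso : ∀ Y : Set (Config d), IsShift Y → IsTransitive Y → hausdorff X Y < ε → Y = X)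
    {A : Finset ℤ} {z : Config d} (hz : ∀ v, z v ∈ A) (hadm : Adm k X z)
    (hall : ∀ x ∈ X, ∃ u, ∀ v, supNorm v ≤ k → z (u + v) = x v) :
    closure (Set.range (fun u => shift u z)) = X := by
  refine hiso _ (isShift_closure_orbit hz) (isTransitive_closure_orbit z) ?_
  refine lt_of_le_of_lt (hausdorff_le hX ⟨z, self_mem_closure_orbit z⟩ ?_ ?_) hk
  · intro x hx
    obtain ⟨u, hu⟩ := hall x hx
    refine ⟨shift u z, ?_, fun v hv => (hu v hv).symm⟩
    exact subset_closure ⟨u, rfl⟩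
  · intro y hy
    rw [mem_closure_orbit_iff] at hy
    obtain ⟨u, hu⟩ := hy _ (finite_ball k)
    obtain ⟨x, hx, hxu⟩ := hadm u
    exact ⟨x, hx, fun v hv => by rw [← hxu v hv, hu v hv]⟩


/-! ### Boxes, weights and rewriting -/

/-- The box `{0,…,N-1}^d`. -/
def box (d N : ℕ) : Set (Fin d → ℤ) := {v | ∀ i, 0 ≤ v i ∧ v i < N}

/-- The inner part of the box. -/
def inner (d k N : ℕ) : Set (Fin d → ℤ) := {v | ∀ i, 2 * (k:ℤ) ≤ v i ∧ v i < (N:ℤ) - 2 * k}

/-- Points of the box from `Fin`-valued indices. -/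
def toZ {N : ℕ} (f : Fin d → Fin N) : Fin d → ℤ := fun i => ((f i : ℕ) : ℤ)

lemma toZ_mem {N : ℕ} (f : Fin d → Fin N) : toZ f ∈ box d N := by
  intro i
  have := (f i).2
  simp only [toZ]
  omega

lemma toZ_injective {N : ℕ} : Function.Injective (toZ (d := d) (N := N)) := by
  intro f g h
  funext i
  have := congrFun h i
  simp only [toZ] at this
  exact Fin.ext (by exact_mod_cast this)

lemma exists_toZ {N : ℕ} {v : Fin d → ℤ} (hv : v ∈ box d N) : ∃ f : Fin d → Fin N, toZ f = v := by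
  refine ⟨fun i => ⟨(v i).toNat, ?_⟩, ?_⟩
  · have := hv i; omega
  · funext i
    have := hv i
    simp only [toZ]
    omega

lemma finite_box (N : ℕ) : (box d N).Finite := by
  refine Set.Finite.subset (Set.finite_range (toZ (d := d) (N := N))) ?_
  intro v hv
  obtain ⟨f, hf⟩ := exists_toZ hv
  exact ⟨f, hf⟩

/-- The exponent attached to a lattice point. -/
def expo (N : ℕ) (v : Fin d → ℤ) : ℤ := ∑ i, v i * (N:ℤ) ^ (i : ℕ)

lemma expo_add (N : ℕ) (u v : Fin d → ℤ) : expo N (u + v) = expo N u + expo N v := by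
  unfold expo
  rw [← Finset.sum_add_distrib]
  exact Finset.sum_congr rfl (fun i _ => by rw [Pi.add_apply, add_mul])

lemma expo_toZ {N : ℕ} (f : Fin d → Fin N) : expo N (toZ f) = ((finFunctionFinEquiv f : ℕ) : ℤ) := by
  rw [finFunctionFinEquiv_apply]
  unfold expo toZ
  push_cast
  rfl

lemma exists_weight {N : ℕ} {c : (Fin d → Fin N) → ℝ} (hc : ∃ f, c f ≠ 0) :
    ∃ t : ℝ, 0 < t ∧ ∑ f, t ^ expo N (toZ f) * c f ≠ 0 := by
  classical
  let p : Polynomial ℝ := ∑ f, Polynomial.monomial (finFunctionFinEquiv f : ℕ) (c f)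
  have hp : p ≠ 0 := by
    obtain ⟨f, hf⟩ := hc
    intro h
    have h1 : p.coeff (finFunctionFinEquiv f : ℕ) = c f := by
      simp only [p, Polynomial.finsetSum_coeff, Polynomial.coeff_monomial]
      rw [Finset.sum_eq_single f]
      · simp
      · intro g _ hg
        rw [if_neg]
        intro h2
        exact hg (finFunctionFinEquiv.injective (Fin.ext h2))
      · intro h2; exact absurd (Finset.mem_univ f) h2
    rw [h, Polynomial.coeff_zero] at h1
    exact hf h1.symm
  have hex : ∃ t : ℝ, 0 < t ∧ p.eval t ≠ 0 := by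
    by_contra hcon
    push Not at hcon
    apply hp
    refine Polynomial.eq_zero_of_infinite_isRoot p (Set.Infinite.mono ?_ (Set.Ioi_infinite (0:ℝ)))
    intro t ht
    exact hcon t ht
  obtain ⟨t, ht, hpt⟩ := hex
  refine ⟨t, ht, ?_⟩
  convert hpt using 1
  simp only [p, Polynomial.eval_finsetSum, Polynomial.eval_monomial]
  refine Finset.sum_congr rfl (fun f _ => ?_)
  rw [expo_toZ, zpow_natCast, mul_comm]

/-- The weighted sum of the pattern of `x` at `a`. -/
noncomputable def wsum (t : ℝ) (N : ℕ) (x : Config d) (a : Fin d → ℤ) : ℝ :=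
  ∑ f : Fin d → Fin N, t ^ expo N (toZ f) * (x (a + toZ f) : ℝ)

open Classical in
/-- Overwrite the pattern at `u` by the pattern of `x` at `b`. -/
noncomputable def rewr (N : ℕ) (x : Config d) (b u : Fin d → ℤ) (z : Config d) : Config d :=
  fun g => if g - u ∈ box d N then x (b + (g - u)) else z g

lemma rewr_adm {X : Set (Config d)} {k N : ℕ} (hshift : ∀ u, ∀ x ∈ X, shift u x ∈ X)
    {x : Config d} (hx : x ∈ X) {a b u : Fin d → ℤ}
    (hbd : ∀ v ∈ box d N, v ∉ inner d k N → x (a + v) = x (b + v))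
    {z : Config d} (hz : Adm k X z) (hocc : ∀ v ∈ box d N, z (u + v) = x (a + v)) :
    Adm k X (rewr N x b u z) := by
  intro w
  by_cases hcase : ∃ v, supNorm v ≤ k ∧ w + v - u ∈ inner d k N
  · obtain ⟨v0, hv0, hin⟩ := hcase
    refine ⟨shift (b + (w - u)) x, hshift _ x hx, fun v hv => ?_⟩
    have hmem : w + v - u ∈ box d N := by
      intro i
      have h1 := hin i
      have h2 := (supNorm_le_iff v0 k).mp hv0 i
      have h3 := (supNorm_le_iff v k).mp hv i
      simp only [Pi.add_apply, Pi.sub_apply] at h1 ⊢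
      omega
    unfold rewr
    rw [if_pos hmem]
    unfold shift
    congr 1
    abel
  · push Not at hcase
    obtain ⟨y, hy, hyz⟩ := hz w
    refine ⟨y, hy, fun v hv => ?_⟩
    rw [← hyz v hv]
    unfold rewr
    split_ifs with hmem
    · rw [← hbd _ hmem (hcase v hv), ← hocc _ hmem]
      congr 1
      abel
    · rfl

lemma sum_rewr {N : ℕ} {t : ℝ} (ht : 0 < t) {x z : Config d} {a b u : Fin d → ℤ}
    {Λ : Finset (Fin d → ℤ)} (hΛ : ∀ v ∈ box d N, u + v ∈ Λ)
    (hocc : ∀ v ∈ box d N, z (u + v) = x (a + v)) :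
    ∑ g ∈ Λ, t ^ expo N g * (rewr N x b u z g : ℝ) =
      ∑ g ∈ Λ, t ^ expo N g * (z g : ℝ) + t ^ expo N u * (wsum t N x b - wsum t N x a) := by
  classical
  rw [← sub_eq_iff_eq_add', ← Finset.sum_sub_distrib]
  have hinj : Function.Injective (fun f : Fin d → Fin N => u + toZ f) := by
    intro f g h
    exact toZ_injective (add_left_cancel h)
  have hsub : Finset.univ.image (fun f : Fin d → Fin N => u + toZ f) ⊆ Λ := by
    intro g hg
    obtain ⟨f, _, rfl⟩ := Finset.mem_image.mp hg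
    exact hΛ _ (toZ_mem f)
  rw [← Finset.sum_subset hsub]
  · rw [Finset.sum_image (fun f _ g _ h => hinj h)]
    unfold wsum
    rw [← Finset.sum_sub_distrib, Finset.mul_sum]
    refine Finset.sum_congr rfl (fun f _ => ?_)
    have h1 : rewr N x b u z (u + toZ f) = x (b + toZ f) := by
      unfold rewr
      rw [add_sub_cancel_left, if_pos (toZ_mem f)]
    rw [h1, hocc _ (toZ_mem f), expo_add, zpow_add₀ ht.ne']
    ring
  · intro g _ hg
    have hg' : g - u ∉ box d N := by
      intro hmem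
      obtain ⟨f, hf⟩ := exists_toZ hmem
      apply hg
      refine Finset.mem_image.mpr ⟨f, Finset.mem_univ _, ?_⟩
      rw [hf]; abel
    have h1 : rewr N x b u z g = z g := by
      unfold rewr
      rw [if_neg hg']
    rw [h1, sub_self]

/-- The set of admissible modifications of `x` inside `Λ`. -/
def modif (k : ℕ) (X : Set (Config d)) (A : Finset ℤ) (x : Config d)
    (Λ : Finset (Fin d → ℤ)) : Set (Config d) :=
  {z | Adm k X z ∧ (∀ v, z v ∈ A) ∧ ∀ v, v ∉ Λ → z v = x v}

lemma finite_modif (k : ℕ) (X : Set (Config d)) (A : Finset ℤ) (x : Config d)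
    (Λ : Finset (Fin d → ℤ)) : (modif k X A x Λ).Finite := by
  let r : Config d → (Λ → ℤ) := fun z v => z v
  refine Set.Finite.of_finite_image (f := r) ?_ ?_
  · refine Set.Finite.subset (Set.Finite.pi (fun _ : Λ => A.finite_toSet)) ?_
    rintro _ ⟨z, hz, rfl⟩
    intro v _
    exact hz.2.1 v
  · intro z hz z' hz' h
    funext v
    by_cases hv : v ∈ Λ
    · exact congrFun h ⟨v, hv⟩
    · rw [hz.2.2 v hv, hz'.2.2 v hv]

/-- Minimal modifications avoid the pattern at `a`. -/
lemma exists_min_modif {X : Set (Config d)} {A : Finset ℤ} {k N : ℕ}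
    (hA : ∀ x ∈ X, ∀ v, x v ∈ A)
    (hshift : ∀ u, ∀ x ∈ X, shift u x ∈ X)
    {x : Config d} (hx : x ∈ X) {a b : Fin d → ℤ}
    (hbd : ∀ v ∈ box d N, v ∉ inner d k N → x (a + v) = x (b + v))
    {t : ℝ} (ht : 0 < t) (hlt : wsum t N x b < wsum t N x a)
    (Λ : Finset (Fin d → ℤ)) :
    ∃ z ∈ modif k X A x Λ, ∀ u, (∀ v ∈ box d N, u + v ∈ Λ) →
      ∃ v ∈ box d N, z (u + v) ≠ x (a + v) := by
  have hne : (modif k X A x Λ).Nonempty :=
    ⟨x, fun u => ⟨shift u x, hshift u x hx, fun v _ => rfl⟩, hA x hx, fun _ _ => rfl⟩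
  obtain ⟨z, hz, hmin⟩ := Set.exists_min_image _ (fun z => ∑ g ∈ Λ, t ^ expo N g * (z g : ℝ))
    (finite_modif k X A x Λ) hne
  refine ⟨z, hz, fun u hu => ?_⟩
  by_contra hcon
  push Not at hcon
  have hz' : rewr N x b u z ∈ modif k X A x Λ := by
    refine ⟨rewr_adm hshift hx hbd hz.1 hcon, ?_, ?_⟩
    · intro g
      unfold rewr
      split_ifs
      · exact hA x hx _
      · exact hz.2.1 g
    · intro g hg
      unfold rewr
      rw [if_neg]
      · exact hz.2.2 g hg
      · intro hmem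
        apply hg
        have := hu _ hmem
        rwa [add_sub_cancel] at this
  have h1 := hmin _ hz'
  rw [sum_rewr ht hu hcon] at h1
  have h2 : (0:ℝ) < t ^ expo N u := zpow_pos ht _
  have h3 : t ^ expo N u * (wsum t N x b - wsum t N x a) < 0 :=
    mul_neg_of_pos_of_neg h2 (by linarith)
  linarith


/-- A finite window of `x` that contains all `k`-ball patterns of `X`. -/
lemma exists_window {X : Set (Config d)} {A : Finset ℤ} (hA : ∀ x ∈ X, ∀ v, x v ∈ A) (k : ℕ)
    {x : Config d} (hdense : X ⊆ closure (Set.range (fun u => shift u x))) :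
    ∃ Q : Set (Fin d → ℤ), Q.Finite ∧ ∀ y ∈ X, ∃ u, (∀ v, supNorm v ≤ k → u + v ∈ Q) ∧
      ∀ v, supNorm v ≤ k → x (u + v) = y v := by
  let Bk : Set (Fin d → ℤ) := {v | supNorm v ≤ k}
  have hBfin : Bk.Finite := finite_ball k
  have : Finite Bk := hBfin.to_subtype
  have : Fintype Bk := Fintype.ofFinite _
  let r : Config d → (Bk → ℤ) := fun z v => z v
  have hR : (r '' X).Finite := by
    refine Set.Finite.subset (Set.Finite.pi (fun _ : Bk => A.finite_toSet)) ?_
    rintro _ ⟨z, hz, rfl⟩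
    intro v _
    exact hA z hz v
  have hex : ∀ p ∈ r '' X, ∃ u, ∀ v : Bk, x (u + v) = p v := by
    rintro _ ⟨y, hy, rfl⟩
    obtain ⟨u, hu⟩ := (mem_closure_orbit_iff x y).mp (hdense hy) Bk hBfin
    exact ⟨u, fun v => hu v v.2⟩
  choose! U hU using hex
  refine ⟨⋃ p ∈ r '' X, (fun v => U p + v) '' Bk, hR.biUnion (fun p _ => hBfin.image _), ?_⟩
  intro y hy
  refine ⟨U (r y), fun v hv => ?_, fun v hv => ?_⟩
  · exact mem_iUnion₂.mpr ⟨r y, ⟨y, hy, rfl⟩, ⟨v, hv, rfl⟩⟩
  · exact hU (r y) ⟨y, hy, rfl⟩ ⟨v, hv⟩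

/-- The core lemma: a pattern that can be lowered occurs only finitely often. -/
lemma core {X : Set (Config d)} {ε : ℝ} {k N : ℕ} (hk : (1/2 : ℝ) ^ (k+1) < ε)
    (hiso : ∀ Y : Set (Config d), IsShift Y → IsTransitive Y → hausdorff X Y < ε → Y = X)
    {A : Finset ℤ} (hA : ∀ x ∈ X, ∀ v, x v ∈ A)
    (hshift : ∀ u, ∀ x ∈ X, shift u x ∈ X)
    {x : Config d} (hx : x ∈ X) (hdense : X ⊆ closure (Set.range (fun u => shift u x)))
    {a b : Fin d → ℤ}
    (hbd : ∀ v ∈ box d N, v ∉ inner d k N → x (a + v) = x (b + v))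
    {t : ℝ} (ht : 0 < t) (hlt : wsum t N x b < wsum t N x a) :
    {u | ∀ v ∈ box d N, x (u + v) = x (a + v)}.Finite := by
  classical
  obtain ⟨Q, hQ, hQX⟩ := exists_window hA k hdense
  -- windows
  let Λ : ℕ → Finset (Fin d → ℤ) := fun n => ((finite_ball (d := d) n).toFinset) \ hQ.toFinset
  have hΛ : ∀ n v, v ∈ Λ n ↔ supNorm v ≤ n ∧ v ∉ Q := by
    intro n v
    simp [Λ]
  choose z hz hzavoid using fun n => exists_min_modif hA hshift hx hbd ht hlt (Λ n)
  obtain ⟨w, hw, hcl⟩ := (isCompact_alphabet (d := d) A).exists_mapClusterPt_of_frequently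
    (l := atTop) (f := z) (Frequently.of_forall (fun n => (hz n).2.1))
  have hagree : ∀ S : Set (Fin d → ℤ), S.Finite → ∀ n0 : ℕ, ∃ n ≥ n0, ∀ v ∈ S, z n v = w v := by
    intro S hS n0
    have h1 := hcl.frequently ((isOpen_agree w hS).mem_nhds (fun _ _ => rfl))
    obtain ⟨n, hn, hn2⟩ := (h1.and_eventually (eventually_ge_atTop n0)).exists
    exact ⟨n, hn2, hn⟩
  -- properties of the limit point
  have hwadm : Adm k X w := by
    intro u
    obtain ⟨n, -, hn⟩ := hagree ((fun v => u + v) '' {v | supNorm v ≤ k})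
      ((finite_ball k).image _) 0
    obtain ⟨y, hy, hyz⟩ := (hz n).1 u
    exact ⟨y, hy, fun v hv => by rw [← hyz v hv, hn _ ⟨v, hv, rfl⟩]⟩
  have hwQ : ∀ v ∈ Q, w v = x v := by
    intro v hv
    obtain ⟨n, -, hn⟩ := hagree {v} (Set.finite_singleton v) 0
    rw [← hn v rfl]
    exact (hz n).2.2 v (fun h => ((hΛ n v).mp h).2 hv)
  have hwall : ∀ y ∈ X, ∃ u, ∀ v, supNorm v ≤ k → w (u + v) = y v := by
    intro y hy
    obtain ⟨u, hu1, hu2⟩ := hQX y hy
    exact ⟨u, fun v hv => by rw [hwQ _ (hu1 v hv), hu2 v hv]⟩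
  have hwavoid : ∀ u, (∀ v ∈ box d N, u + v ∉ Q) → ∃ v ∈ box d N, w (u + v) ≠ x (a + v) := by
    intro u hu
    have hfin : ((fun v => u + v) '' box d N).Finite := (finite_box N).image _
    obtain ⟨M, hM⟩ : ∃ M, ∀ g ∈ (fun v => u + v) '' box d N, supNorm g ≤ M := by
      obtain ⟨M, hM⟩ := (hfin.image supNorm).bddAbove
      exact ⟨M, fun g hg => hM ⟨g, hg, rfl⟩⟩
    obtain ⟨n, hn1, hn2⟩ := hagree _ hfin M
    obtain ⟨v, hv, hne⟩ := hzavoid n u (fun v hv => (hΛ n _).mpr
      ⟨(hM _ ⟨v, hv, rfl⟩).trans hn1, hu v hv⟩)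
    exact ⟨v, hv, by rw [← hn2 _ ⟨v, hv, rfl⟩]; exact hne⟩
  have hE : {u | ∀ v ∈ box d N, w (u + v) = x (a + v)}.Finite := by
    refine Set.Finite.subset (Set.Finite.image2 (fun q v => q - v) hQ (finite_box (d := d) N)) ?_
    intro u hu
    by_contra hcon
    obtain ⟨v, hv, hne⟩ := hwavoid u (fun v hv hq => hcon ⟨u + v, hq, v, hv, add_sub_cancel_right u v⟩)
    exact hne (hu v hv)
  have hcleq := closure_orbit_eq hk ⟨x, hx⟩ hiso hw hwadm hwall
  have hxcl : x ∈ closure (Set.range (fun u => shift u w)) := by rw [hcleq]; exact hx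
  rw [mem_closure_orbit_iff] at hxcl
  -- counting occurrences
  by_contra hinf
  obtain ⟨T, hT, hTcard⟩ := (show Set.Infinite {u | ∀ v ∈ box d N, x (u + v) = x (a + v)}
    from hinf).exists_subset_card_eq (hE.toFinset.card + 1)
  obtain ⟨s, hs⟩ := hxcl (Set.image2 (fun u v => u + v) (T : Set (Fin d → ℤ)) (box d N))
    (Set.Finite.image2 _ T.finite_toSet (finite_box N))
  have hsub : T.image (fun u => s + u) ⊆ hE.toFinset := by
    intro g hg
    obtain ⟨u, hu, rfl⟩ := Finset.mem_image.mp hg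
    rw [Set.Finite.mem_toFinset]
    intro v hv
    rw [add_assoc, hs _ ⟨u, hu, v, hv, rfl⟩]
    exact hT hu v hv
  have hcard := Finset.card_le_card hsub
  rw [Finset.card_image_of_injective _ (add_right_injective s), hTcard] at hcard
  omega

/-- Two patterns that occur infinitely often and agree near the boundary are equal. -/
lemma rigid {X : Set (Config d)} {ε : ℝ} {k N : ℕ} (hk : (1/2 : ℝ) ^ (k+1) < ε)
    (hiso : ∀ Y : Set (Config d), IsShift Y → IsTransitive Y → hausdorff X Y < ε → Y = X)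
    {A : Finset ℤ} (hA : ∀ x ∈ X, ∀ v, x v ∈ A)
    (hshift : ∀ u, ∀ x ∈ X, shift u x ∈ X)
    {x : Config d} (hx : x ∈ X) (hdense : X ⊆ closure (Set.range (fun u => shift u x)))
    {a b : Fin d → ℤ}
    (hbd : ∀ v ∈ box d N, v ∉ inner d k N → x (a + v) = x (b + v))
    (ha : {u | ∀ v ∈ box d N, x (u + v) = x (a + v)}.Infinite)
    (hb : {u | ∀ v ∈ box d N, x (u + v) = x (b + v)}.Infinite) :
    ∀ v ∈ box d N, x (a + v) = x (b + v) := by
  by_contra hcon
  push Not at hcon
  obtain ⟨v, hv, hne⟩ := hcon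
  obtain ⟨f, rfl⟩ := exists_toZ hv
  obtain ⟨t, ht, hsum⟩ := exists_weight (N := N) (d := d)
    (c := fun f => (x (a + toZ f) : ℝ) - (x (b + toZ f) : ℝ))
    ⟨f, by
      intro h
      apply hne
      have : (x (a + toZ f) : ℝ) = (x (b + toZ f) : ℝ) := by linarith
      exact_mod_cast this⟩
  have hdiff : wsum t N x a - wsum t N x b ≠ 0 := by
    unfold wsum
    rw [← Finset.sum_sub_distrib]
    convert hsum using 1
    exact Finset.sum_congr rfl (fun f _ => by ring)
  rcases lt_or_gt_of_ne hdiff with h | h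
  · exact hb (core hk hiso hA hshift hx hdense (fun v hv hv' => (hbd v hv hv').symm) ht
      (by linarith))
  · exact ha (core hk hiso hA hshift hx hdense hbd ht (by linarith))


/-! ### Counting -/

/-- The pattern of `x` at `u`. -/
def pat (N : ℕ) (x : Config d) (u : Fin d → ℤ) : (Fin d → Fin N) → ℤ := fun f => x (u + toZ f)

/-- Patterns of size `N` that occur infinitely often in `x`. -/
def FF (N : ℕ) (x : Config d) : Set ((Fin d → Fin N) → ℤ) := {p | {u | pat N x u = p}.Infinite}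

lemma pat_eq_iff {N : ℕ} {x : Config d} {u a : Fin d → ℤ} :
    pat N x u = pat N x a ↔ ∀ v ∈ box d N, x (u + v) = x (a + v) := by
  constructor
  · intro h v hv
    obtain ⟨f, rfl⟩ := exists_toZ hv
    exact congrFun h f
  · intro h
    funext f
    exact h _ (toZ_mem f)

lemma finite_pats (A : Finset ℤ) (N : ℕ) :
    (Set.pi Set.univ (fun _ : Fin d → Fin N => (A : Set ℤ))).Finite :=
  Set.Finite.pi (fun _ => A.finite_toSet)

lemma FF_sub {A : Finset ℤ} {x : Config d} (hxA : ∀ v, x v ∈ A) (N : ℕ) :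
    FF N x ⊆ Set.pi Set.univ (fun _ : Fin d → Fin N => (A : Set ℤ)) := by
  intro p hp
  obtain ⟨u, hu⟩ := Set.Infinite.nonempty hp
  rw [← (show pat N x u = p from hu)]
  intro f _
  exact hxA _

/-- Far away only patterns of `FF` occur. -/
lemma exists_radius {A : Finset ℤ} {x : Config d} (hxA : ∀ v, x v ∈ A) (N : ℕ) :
    ∃ R : ℕ, ∀ u, R < supNorm u → pat N x u ∈ FF N x := by
  have hfin : {u | pat N x u ∉ FF N x}.Finite := by
    refine Set.Finite.subset (Set.Finite.biUnion ((finite_pats (d := d) A N).sdiff (t := FF N x))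
      (t := fun p => {u | pat N x u = p}) ?_) ?_
    · intro p hp
      by_contra hcon
      exact hp.2 hcon
    · intro u hu
      exact mem_iUnion₂.mpr ⟨pat N x u, ⟨fun f _ => hxA _, hu⟩, rfl⟩
  obtain ⟨R, hR⟩ := (hfin.image supNorm).bddAbove
  refine ⟨R, fun u hu => ?_⟩
  by_contra hcon
  have := hR ⟨u, hcon, rfl⟩
  omega

open Classical in
/-- Number of indices in the inner part. -/
lemma card_inner {k K : ℕ} (hkK : 4 * k ≤ K) :
    (Finset.univ.filter (fun f : Fin d → Fin K => toZ f ∈ inner d k K)).card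
      = (K - 4 * k) ^ d := by
  have h1 : (Finset.univ.filter (fun f : Fin d → Fin K => toZ f ∈ inner d k K))
      = Fintype.piFinset (fun _ : Fin d =>
        Finset.univ.filter (fun j : Fin K => 2 * k ≤ (j : ℕ) ∧ (j : ℕ) < K - 2 * k)) := by
    ext f
    simp only [Finset.mem_filter, Finset.mem_univ, true_and, Fintype.mem_piFinset]
    refine forall_congr' (fun i => ?_)
    simp only [toZ]
    omega
  rw [h1, Fintype.card_piFinset_const]
  congr 1
  have h2 : (Finset.univ.filter (fun j : Fin K => 2 * k ≤ (j : ℕ) ∧ (j : ℕ) < K - 2 * k)).card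
      = (Finset.Ico (2 * k) (K - 2 * k)).card := by
    rw [← Finset.card_map (Fin.valEmbedding)]
    congr 1
    ext j
    simp only [Finset.mem_map, Finset.mem_filter, Finset.mem_univ, true_and,
      Fin.valEmbedding_apply, Finset.mem_Ico]
    constructor
    · rintro ⟨j', hj', rfl⟩; exact hj'
    · intro hj; exact ⟨⟨j, by omega⟩, hj, rfl⟩
  rw [h2, Nat.card_Ico]
  omega

/-- The number of frequently occurring patterns is bounded by the boundary. -/
lemma card_FF {X : Set (Config d)} {ε : ℝ} {k K : ℕ} (hk : (1/2 : ℝ) ^ (k+1) < ε)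
    (hiso : ∀ Y : Set (Config d), IsShift Y → IsTransitive Y → hausdorff X Y < ε → Y = X)
    {A : Finset ℤ} (hA : ∀ x ∈ X, ∀ v, x v ∈ A)
    (hshift : ∀ u, ∀ x ∈ X, shift u x ∈ X)
    {x : Config d} (hx : x ∈ X) (hdense : X ⊆ closure (Set.range (fun u => shift u x)))
    (hkK : 4 * k ≤ K) :
    (FF K x).ncard ≤ A.card ^ (K ^ d - (K - 4 * k) ^ d) := by
  classical
  let I : Finset (Fin d → Fin K) := Finset.univ.filter (fun f => toZ f ∉ inner d k K)
  let r : ((Fin d → Fin K) → ℤ) → (I → ℤ) := fun p f => p f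
  have hinj : Set.InjOn r (FF K x) := by
    intro p hp q hq hpq
    obtain ⟨a, ha⟩ := Set.Infinite.nonempty hp
    obtain ⟨b, hb⟩ := Set.Infinite.nonempty hq
    have ha' : pat K x a = p := ha
    have hb' : pat K x b = q := hb
    subst ha' hb'
    rw [pat_eq_iff]
    refine rigid (k := k) hk hiso hA hshift hx hdense ?_ ?_ ?_
    · intro v hv hvin
      obtain ⟨f, rfl⟩ := exists_toZ hv
      exact congrFun hpq ⟨f, Finset.mem_filter.mpr ⟨Finset.mem_univ _, hvin⟩⟩
    · have : {u | ∀ v ∈ box d K, x (u + v) = x (a + v)} = {u | pat K x u = pat K x a} := by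
        ext u; exact pat_eq_iff.symm
      rw [this]; exact hp
    · have : {u | ∀ v ∈ box d K, x (u + v) = x (b + v)} = {u | pat K x u = pat K x b} := by
        ext u; exact pat_eq_iff.symm
      rw [this]; exact hq
  rw [← hinj.ncard_image]
  have hsub : r '' FF K x ⊆ ((Fintype.piFinset (fun _ : I => A) : Finset (I → ℤ)) : Set (I → ℤ)) := by
    rintro _ ⟨p, hp, rfl⟩
    rw [Finset.mem_coe, Fintype.mem_piFinset]
    intro f
    exact FF_sub (hA x hx) K hp f (mem_univ _)
  refine (Set.ncard_le_ncard hsub (Finset.finite_toSet _)).trans ?_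
  rw [Set.ncard_coe_finset, Fintype.card_piFinset]
  simp only [Finset.prod_const, Finset.card_univ, Fintype.card_coe]
  have hI : I.card = K ^ d - (K - 4 * k) ^ d := by
    have h1 := Finset.card_filter_add_card_filter_not (s := (Finset.univ : Finset (Fin d → Fin K)))
      (fun f => toZ f ∈ inner d k K)
    rw [card_inner hkK, Finset.card_univ, Fintype.card_fun, Fintype.card_fin, Fintype.card_fin] at h1
    have h2 : I.card + (K - 4 * k) ^ d = K ^ d := by
      rw [← h1, add_comm]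
    omega
  rw [hI]

lemma language_sub {A : Finset ℤ} {X : Set (Config d)} (hA : ∀ x ∈ X, ∀ v, x v ∈ A) (n : ℕ) :
    language n X ⊆ Set.pi Set.univ (fun _ : Fin d → Fin n => (A : Set ℤ)) := by
  rintro p ⟨x, hx, u, hu⟩ f _
  rw [← hu f]
  exact hA x hx _

lemma language_mono {A : Finset ℤ} {X : Set (Config d)} (hA : ∀ x ∈ X, ∀ v, x v ∈ A)
    {n n' : ℕ} (h : n ≤ n') : (language n X).ncard ≤ (language n' X).ncard := by
  let r : ((Fin d → Fin n') → ℤ) → ((Fin d → Fin n) → ℤ) := fun p f => p (fun i => Fin.castLE h (f i))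
  have hfin : (language n' X).Finite := (finite_pats A n').subset (language_sub hA n')
  have hsub : language n X ⊆ r '' language n' X := by
    rintro p ⟨x, hx, u, hu⟩
    refine ⟨pat n' x u, ⟨x, hx, u, fun v => rfl⟩, ?_⟩
    funext f
    rw [← hu f]
    rfl
  exact (Set.ncard_le_ncard hsub (hfin.image r)).trans (Set.ncard_image_le hfin)

/-- Combination of a tile index and an index inside the tile. -/
def comb {m K : ℕ} (w : Fin d → Fin m) (f : Fin d → Fin K) : Fin d → Fin (m * K) :=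
  fun i => finProdFinEquiv (w i, f i)

lemma toZ_comb {m K : ℕ} (w : Fin d → Fin m) (f : Fin d → Fin K) :
    toZ (comb w f) = (K:ℤ) • toZ w + toZ f := by
  funext i
  simp only [toZ, comb, finProdFinEquiv, Equiv.coe_fn_mk, Pi.add_apply, Pi.smul_apply,
    smul_eq_mul]
  push_cast
  ring

lemma exists_comb {m K : ℕ} (g : Fin d → Fin (m * K)) : ∃ w f, comb w f = g := by
  refine ⟨fun i => (finProdFinEquiv.symm (g i)).1, fun i => (finProdFinEquiv.symm (g i)).2, ?_⟩
  funext i
  exact finProdFinEquiv.apply_symm_apply (g i)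

/-- The main counting estimate. -/
lemma card_language {X : Set (Config d)} {A : Finset ℤ} (hA : ∀ x ∈ X, ∀ v, x v ∈ A)
    {x : Config d} (hx : x ∈ X) (hdense : X ⊆ closure (Set.range (fun u => shift u x)))
    {K R : ℕ} (hK' : 0 < K) (hR : ∀ u, R < supNorm u → pat K x u ∈ FF K x) (m : ℕ) :
    (language (m * K) X).ncard ≤ (2 * R + m * K) ^ d + (FF K x).ncard ^ (m ^ d) := by
  classical
  have hFfin : (FF K x).Finite := (finite_pats A K).subset (FF_sub (hA x hx) K)
  -- exceptional positions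
  let E : Finset (Fin d → ℤ) := Fintype.piFinset
    (fun _ : Fin d => Finset.Ioc (-((R:ℤ) + (m * K : ℕ))) (R:ℤ))
  have hEcard : E.card = (2 * R + m * K) ^ d := by
    rw [Fintype.card_piFinset_const]
    congr 1
    rw [Int.card_Ioc]
    push_cast
    omega
  let T : Set ((Fin d → Fin (m * K)) → ℤ) := {p | ∀ w : Fin d → Fin m,
    (fun f : Fin d → Fin K => p (comb w f)) ∈ FF K x}
  have hTfin : T.Finite ∧ T.ncard ≤ (FF K x).ncard ^ (m ^ d) := by
    let r : ((Fin d → Fin (m * K)) → ℤ) → ((Fin d → Fin m) → ((Fin d → Fin K) → ℤ)) :=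
      fun p w f => p (comb w f)
    have hrinj : Function.Injective r := by
      intro p q hpq
      funext g
      obtain ⟨w, f, rfl⟩ := exists_comb g
      exact congrFun (congrFun hpq w) f
    have hsub : r '' T ⊆ ((Fintype.piFinset (fun _ : Fin d → Fin m => hFfin.toFinset) :
        Finset ((Fin d → Fin m) → ((Fin d → Fin K) → ℤ))) : Set _) := by
      rintro _ ⟨p, hp, rfl⟩
      rw [Finset.mem_coe, Fintype.mem_piFinset]
      intro w
      rw [Set.Finite.mem_toFinset]
      exact hp w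
    have hfin2 : (r '' T).Finite := Set.Finite.subset (Finset.finite_toSet _) hsub
    refine ⟨Set.Finite.of_finite_image hfin2 hrinj.injOn, ?_⟩
    rw [← (hrinj.injOn (s := T)).ncard_image]
    refine (Set.ncard_le_ncard hsub (Finset.finite_toSet _)).trans ?_
    rw [Set.ncard_coe_finset, Fintype.card_piFinset]
    simp only [Finset.prod_const, Finset.card_univ, Fintype.card_fun, Fintype.card_fin]
    rw [Set.ncard_eq_toFinset_card _ hFfin]
  have hsub : language (m * K) X ⊆ (pat (m * K) x '' (E : Set (Fin d → ℤ))) ∪ T := by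
    rintro p ⟨y, hy, u', hu'⟩
    -- find an occurrence in x
    obtain ⟨s, hs⟩ := (mem_closure_orbit_iff x y).mp (hdense hy)
      ((fun v => u' + v) '' box d (m * K)) ((finite_box _).image _)
    have hp : pat (m * K) x (s + u') = p := by
      funext f
      rw [← hu' f]
      unfold pat
      rw [add_assoc]
      exact hs _ ⟨toZ f, toZ_mem f, rfl⟩
    by_cases hcase : ∃ v ∈ box d (m * K), supNorm (s + u' + v) ≤ R
    · left
      refine ⟨s + u', ?_, hp⟩
      obtain ⟨v, hv, hv2⟩ := hcase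
      rw [Finset.mem_coe, Fintype.mem_piFinset]
      intro i
      have h1 := hv i
      have h2 := (supNorm_le_iff _ R).mp hv2 i
      simp only [Pi.add_apply] at h2
      rw [Finset.mem_Ioc]
      simp only [Pi.add_apply]
      omega
    · right
      push Not at hcase
      intro w
      rw [← hp]
      let f0 : Fin d → Fin K := fun _ => ⟨0, hK'⟩
      have hf0 : toZ f0 = 0 := by funext i; simp [toZ, f0]
      have h3 := hcase (toZ (comb w f0)) (toZ_mem _)
      have h4 := hR _ h3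
      have h5 : pat K x (s + u' + toZ (comb w f0)) =
          (fun f : Fin d → Fin K => pat (m * K) x (s + u') (comb w f)) := by
        funext f
        unfold pat
        rw [toZ_comb, toZ_comb, hf0, add_zero]
        congr 1
        abel
      rw [← h5]; exact h4
  have hfinimg : (pat (m * K) x '' (E : Set (Fin d → ℤ))).Finite := (Finset.finite_toSet E).image _
  calc (language (m * K) X).ncard ≤ ((pat (m * K) x '' (E : Set (Fin d → ℤ))) ∪ T).ncard :=
        Set.ncard_le_ncard hsub (hfinimg.union hTfin.1)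
    _ ≤ (pat (m * K) x '' (E : Set (Fin d → ℤ))).ncard + T.ncard := Set.ncard_union_le _ _
    _ ≤ (E : Set (Fin d → ℤ)).ncard + (FF K x).ncard ^ (m ^ d) :=
        add_le_add (Set.ncard_image_le (Finset.finite_toSet E)) hTfin.2
    _ = _ := by rw [Set.ncard_coe_finset, hEcard]


/-! ### Asymptotics -/

lemma tendsto_boundary_ratio (d k : ℕ) (c : ℝ) :
    Tendsto (fun K : ℕ => c * (1 - (1 - 4 * (k:ℝ) / K) ^ d)) atTop (𝓝 0) := by
  have h1 : Tendsto (fun K : ℕ => 4 * (k:ℝ) / K) atTop (𝓝 0) :=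
    tendsto_const_div_atTop_nhds_zero_nat _
  have h2 : Tendsto (fun K : ℕ => c * (1 - (1 - 4 * (k:ℝ) / K) ^ d)) atTop
      (𝓝 (c * (1 - (1 - 0) ^ d))) :=
    (tendsto_const_nhds.sub ((tendsto_const_nhds.sub h1).pow d)).const_mul c
  simpa using h2

lemma tendsto_log_div (d : ℕ) (hd : 1 ≤ d) (c : ℕ) :
    Tendsto (fun n : ℕ => Real.log (c + n : ℝ) / (n:ℝ) ^ d) atTop (𝓝 0) := by
  have h1 : Tendsto (fun n : ℕ => Real.log (n:ℝ) / (n:ℝ)) atTop (𝓝 0) :=
    (Real.isLittleO_log_id_atTop.tendsto_div_nhds_zero).comp tendsto_natCast_atTop_atTop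
  have h2 : Tendsto (fun n : ℕ => Real.log (c + 1 : ℝ) / (n:ℝ)) atTop (𝓝 0) :=
    tendsto_const_div_atTop_nhds_zero_nat _
  have h3 := h2.add h1
  rw [add_zero] at h3
  refine squeeze_zero' ?_ ?_ h3
  · filter_upwards [eventually_ge_atTop 1] with n hn
    have : (1:ℝ) ≤ n := by exact_mod_cast hn
    have hc : (0:ℝ) ≤ c := Nat.cast_nonneg c
    refine div_nonneg (Real.log_nonneg (by linarith)) (by positivity)
  · filter_upwards [eventually_ge_atTop 1] with n hn
    have hn1 : (1:ℝ) ≤ n := by exact_mod_cast hn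
    have hc : (0:ℝ) ≤ c := Nat.cast_nonneg c
    have hpow : (n:ℝ) ≤ (n:ℝ) ^ d := by
      calc (n:ℝ) = (n:ℝ) ^ 1 := (pow_one _).symm
        _ ≤ (n:ℝ) ^ d := pow_le_pow_right₀ hn1 hd
    have hlog : Real.log (c + n : ℝ) ≤ Real.log (c + 1 : ℝ) + Real.log (n:ℝ) := by
      rw [← Real.log_mul (by linarith) (by linarith)]
      refine Real.log_le_log (by linarith) ?_
      nlinarith
    have hlog0 : 0 ≤ Real.log (c + n : ℝ) := Real.log_nonneg (by linarith)
    calc Real.log (c + n : ℝ) / (n:ℝ) ^ d ≤ Real.log (c + n : ℝ) / (n:ℝ) :=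
          div_le_div_of_nonneg_left hlog0 (by linarith) hpow
      _ ≤ (Real.log (c + 1 : ℝ) + Real.log (n:ℝ)) / n :=
          div_le_div_of_nonneg_right hlog (by linarith)
      _ = _ := by rw [add_div]

theorem main (d : ℕ) (hd : 1 ≤ d) (X : Set (Config d)) (hX : IsIsolated X) : HasEntropy X 0 := by
  obtain ⟨⟨⟨A, hA⟩, -, hshift⟩, ⟨x, hx, hdense⟩, ε, hε, hiso⟩ := hX
  obtain ⟨k, hk⟩ : ∃ k : ℕ, (1/2 : ℝ) ^ (k+1) < ε := by
    obtain ⟨k, hk⟩ := exists_pow_lt_of_lt_one hε (show (1/2 : ℝ) < 1 by norm_num)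
    refine ⟨k, lt_of_le_of_lt ?_ hk⟩
    exact pow_le_pow_of_le_one (by norm_num) (by norm_num) (Nat.le_succ k)
  have hapos : 1 ≤ A.card := Finset.card_pos.mpr ⟨_, hA x hx 0⟩
  have ha1 : (1:ℝ) ≤ A.card := by exact_mod_cast hapos
  have hloga : 0 ≤ Real.log (A.card : ℝ) := Real.log_nonneg ha1
  -- lower bound
  have hLne : ∀ n, 1 ≤ (language n X).ncard := by
    intro n
    have hfin : (language n X).Finite := (finite_pats A n).subset (language_sub hA n)
    rw [Nat.one_le_iff_ne_zero, Ne, Set.ncard_eq_zero hfin]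
    exact Set.nonempty_iff_ne_empty.mp ⟨pat n x 0, x, hx, 0, fun v => rfl⟩
  have hlow : ∀ n : ℕ, 0 ≤ Real.log ((language n X).ncard : ℝ) / (n : ℝ) ^ d := by
    intro n
    refine div_nonneg (Real.log_nonneg ?_) (by positivity)
    exact_mod_cast hLne n
  unfold HasEntropy
  rw [Metric.tendsto_atTop]
  intro δ hδ
  -- choose K
  have hKex := (tendsto_boundary_ratio d k (Real.log (A.card : ℝ))).eventually
    (gt_mem_nhds hδ)
  obtain ⟨K, hK1, hK2⟩ := (hKex.and (eventually_ge_atTop (4 * k + 1))).exists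
  have hKpos : 0 < K := by omega
  have hKR : (0:ℝ) < K := by exact_mod_cast hKpos
  obtain ⟨R, hR⟩ := exists_radius (hA x hx) K
  set J : ℕ := K ^ d - (K - 4 * k) ^ d with hJ
  have hJcast : (J : ℝ) = (K:ℝ) ^ d * (1 - (1 - 4 * (k:ℝ) / K) ^ d) := by
    have h1 : (K - 4 * k) ^ d ≤ K ^ d := Nat.pow_le_pow_left (by omega) d
    rw [hJ, Nat.cast_sub h1]
    push_cast [Nat.cast_sub (show 4 * k ≤ K by omega)]
    have h2 : (1 - 4 * (k:ℝ) / K) ^ d = ((K:ℝ) - 4 * k) ^ d / (K:ℝ) ^ d := by
      rw [← div_pow]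
      congr 1
      field_simp
    rw [h2]
    field_simp
  have hFcard := card_FF (k := k) hk hiso hA hshift hx hdense (show 4 * k ≤ K by omega)
  -- the upper bound
  have hup : ∀ n : ℕ, 1 ≤ n → Real.log ((language n X).ncard : ℝ) / (n : ℝ) ^ d ≤
      Real.log 2 / (n:ℝ) ^ d + d * (Real.log (((2 * R + K : ℕ) : ℝ) + n) / (n:ℝ) ^ d)
        + J * Real.log (A.card : ℝ) * ((1 + K / n) / K) ^ d := by
    intro n hn
    have hnR : (1:ℝ) ≤ n := by exact_mod_cast hn
    set m : ℕ := n / K + 1 with hm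
    have hdm := Nat.div_add_mod n K
    have hmod := Nat.mod_lt n hKpos
    have hmK1 : n ≤ m * K := by
      rw [hm, add_mul, one_mul, mul_comm]; omega
    have hmK2 : m * K ≤ n + K := by
      rw [hm, add_mul, one_mul, mul_comm]; omega
    have hc1 : (language n X).ncard ≤ (2 * R + m * K) ^ d + (A.card ^ J) ^ (m ^ d) :=
      calc (language n X).ncard ≤ (language (m * K) X).ncard := language_mono hA hmK1
        _ ≤ (2 * R + m * K) ^ d + (FF K x).ncard ^ (m ^ d) :=
            card_language hA hx hdense hKpos hR m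
        _ ≤ _ := Nat.add_le_add_left (Nat.pow_le_pow_left hFcard _) _
    have hp1 : 1 ≤ (2 * R + m * K) ^ d := Nat.one_le_pow _ _ (by omega)
    have hp2 : 1 ≤ (A.card ^ J) ^ (m ^ d) := Nat.one_le_pow _ _ (Nat.pos_of_ne_zero (by positivity))
    have hc2 : (language n X).ncard ≤ 2 * ((2 * R + m * K) ^ d * (A.card ^ J) ^ (m ^ d)) := by
      refine hc1.trans ?_
      nlinarith
    have hc3 : ((language n X).ncard : ℝ) ≤
        2 * (((2 * R + m * K : ℕ) : ℝ) ^ d * ((A.card : ℝ) ^ J) ^ (m ^ d)) := by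
      exact_mod_cast hc2
    have hb1 : (0:ℝ) < ((2 * R + m * K : ℕ) : ℝ) := by
      have : 0 < 2 * R + m * K := by omega
      exact_mod_cast this
    have hb2 : (0:ℝ) < (A.card : ℝ) := by linarith
    have hlog1 : Real.log ((language n X).ncard : ℝ) ≤
        Real.log 2 + (d * Real.log ((2 * R + m * K : ℕ) : ℝ) +
          (m:ℝ) ^ d * (J * Real.log (A.card : ℝ))) := by
      have hpos : (0:ℝ) < ((language n X).ncard : ℝ) := by exact_mod_cast hLne n
      refine (Real.log_le_log hpos hc3).trans (le_of_eq ?_)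
      rw [Real.log_mul (by norm_num) (by positivity), Real.log_mul (by positivity) (by positivity),
        Real.log_pow, Real.log_pow, Real.log_pow]
      push_cast
      ring
    have hlog2 : Real.log ((2 * R + m * K : ℕ) : ℝ) ≤ Real.log (((2 * R + K : ℕ) : ℝ) + n) := by
      refine Real.log_le_log hb1 ?_
      have : 2 * R + m * K ≤ (2 * R + K) + n := by omega
      exact_mod_cast this
    have hmle : (m:ℝ) ≤ n * ((1 + K / n) / K) := by
      have h1 : (m:ℝ) * K ≤ n + K := by exact_mod_cast hmK2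
      have h2 : (n:ℝ) * ((1 + K / n) / K) = (n + K) / K := by
        field_simp
      rw [h2, le_div_iff₀ hKR]
      exact h1
    have hmpow : (m:ℝ) ^ d ≤ (n:ℝ) ^ d * ((1 + K / n) / K) ^ d := by
      rw [← mul_pow]
      exact pow_le_pow_left₀ (Nat.cast_nonneg m) hmle d
    have hnd : (0:ℝ) < (n:ℝ) ^ d := by positivity
    rw [div_le_iff₀ hnd]
    have hJl : 0 ≤ (J:ℝ) * Real.log (A.card : ℝ) := mul_nonneg (Nat.cast_nonneg _) hloga
    calc Real.log ((language n X).ncard : ℝ)
        ≤ Real.log 2 + (d * Real.log (((2 * R + K : ℕ) : ℝ) + n) +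
          ((n:ℝ) ^ d * ((1 + K / n) / K) ^ d) * (J * Real.log (A.card : ℝ))) := by
          have h3 : (d:ℝ) * Real.log ((2 * R + m * K : ℕ) : ℝ) ≤
              d * Real.log (((2 * R + K : ℕ) : ℝ) + n) :=
            mul_le_mul_of_nonneg_left hlog2 (Nat.cast_nonneg d)
          have h4 := mul_le_mul_of_nonneg_right hmpow hJl
          linarith
      _ = _ := by
          field_simp
          ring
  -- the limit of the upper bound
  have hlim : Tendsto (fun n : ℕ =>
      Real.log 2 / (n:ℝ) ^ d + d * (Real.log (((2 * R + K : ℕ) : ℝ) + n) / (n:ℝ) ^ d)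
        + J * Real.log (A.card : ℝ) * ((1 + K / n) / K) ^ d) atTop
      (𝓝 (0 + d * 0 + J * Real.log (A.card : ℝ) * ((1 + 0) / K) ^ d)) := by
    refine Tendsto.add (Tendsto.add ?_ ?_) ?_
    · have h1 : Tendsto (fun n : ℕ => (n:ℝ) ^ d) atTop atTop :=
        (tendsto_pow_atTop (by omega)).comp tendsto_natCast_atTop_atTop
      exact h1.const_div_atTop _
    · exact (tendsto_log_div d hd (2 * R + K)).const_mul _
    · refine Tendsto.const_mul _ (Tendsto.pow (Tendsto.div_const (tendsto_const_nhds.add ?_) _) _)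
      exact tendsto_const_div_atTop_nhds_zero_nat _
  have hval : 0 + (d:ℝ) * 0 + J * Real.log (A.card : ℝ) * ((1 + 0) / K) ^ d < δ := by
    have h1 : 0 + (d:ℝ) * 0 + J * Real.log (A.card : ℝ) * ((1 + 0) / K) ^ d
        = Real.log (A.card : ℝ) * (1 - (1 - 4 * (k:ℝ) / K) ^ d) := by
      rw [hJcast, add_zero, div_pow, one_pow]
      field_simp
      ring
    rw [h1]; exact hK1
  obtain ⟨N, hN⟩ := eventually_atTop.mp (hlim.eventually (gt_mem_nhds hval))
  refine ⟨max N 1, fun n hn => ?_⟩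
  have hn1 : 1 ≤ n := (le_max_right _ _).trans hn
  have hnN : N ≤ n := (le_max_left _ _).trans hn
  rw [Real.dist_eq, sub_zero, abs_of_nonneg (hlow n)]
  exact lt_of_le_of_lt (hup n hn1) (hN n hnN)

end Pool.Agent.MP86c582
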